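import Mathlib

/-!
# One admissible lattice for the body `|x_j| < 2 (1 + e_j)`, `|v_i x| < 4 (1 + b_i)`

Coordinates: `v_1 = (1,1,1)`, `v_2 = (1,-1,-1)`, `v_3 = (-1,1,-1)`, `v_4 = (-1,-1,1)`.
The lattice is spanned by `u = (0, 2Y, -t)`, `w = (0, -t, 2Z)` and `g = (h, y₀, z₀)`,
`Y = 1 + e_2`, `Z = 1 + e_3`; its determinant is `(4 Y Z - t²) h`.
-/

namespace Pool.Agent.Helper84.ML3

/-- Layer `0`. -/
theorem adm_zero {e2 e3 b1 b2 t : ℝ} (ht0 : 0 ≤ t) (htY : t ≤ 2 * (1 + e2))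
    (htZ : t ≤ 2 * (1 + e3))
    (ht : t = 0 ∨ t ≤ e2 + e3 - 2 * b1 ∨ t ≤ e2 + e3 - 2 * b2)
    (i j : ℤ) (hij : ¬ (i = 0 ∧ j = 0)) :
    2 * (1 + e2) ≤ |(i : ℝ) * (2 * (1 + e2)) - j * t| ∨
    2 * (1 + e3) ≤ |-((i : ℝ) * t) + j * (2 * (1 + e3))| ∨
    4 * (1 + b1) ≤ |((i : ℝ) * (2 * (1 + e2)) - j * t) + (-((i : ℝ) * t) + j * (2 * (1 + e3)))| ∨
    4 * (1 + b2) ≤ |((i : ℝ) * (2 * (1 + e2)) - j * t) + (-((i : ℝ) * t) + j * (2 * (1 + e3)))| := by
  -- reduce to `i ≥ 1` or (`i = 0`, `j ≥ 1`) by symmetry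
  have key : ∀ i j : ℤ, 0 ≤ i → ¬ (i = 0 ∧ j = 0) →
      (2 * (1 + e2) ≤ |(i : ℝ) * (2 * (1 + e2)) - j * t| ∨
      2 * (1 + e3) ≤ |-((i : ℝ) * t) + j * (2 * (1 + e3))| ∨
      4 * (1 + b1) ≤
        |((i : ℝ) * (2 * (1 + e2)) - j * t) + (-((i : ℝ) * t) + j * (2 * (1 + e3)))| ∨
      4 * (1 + b2) ≤
        |((i : ℝ) * (2 * (1 + e2)) - j * t) + (-((i : ℝ) * t) + j * (2 * (1 + e3)))|) := by
    intro i j hi hij
    rcases eq_or_lt_of_le hi with hi0 | hi1
    · -- `i = 0`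
      subst hi0
      have hj : j ≠ 0 := fun h => hij ⟨rfl, h⟩
      have hj1 : (1 : ℝ) ≤ |(j : ℝ)| := by
        exact_mod_cast Int.one_le_abs hj
      right; left
      have : (-(((0 : ℤ) : ℝ) * t) + j * (2 * (1 + e3))) = j * (2 * (1 + e3)) := by
        push_cast; ring
      rw [this, abs_mul, abs_of_nonneg (by linarith : (0 : ℝ) ≤ 2 * (1 + e3))]
      nlinarith
    · have hi1' : (1 : ℝ) ≤ i := by exact_mod_cast hi1
      rcases le_or_gt j 0 with hj | hj
      · have hj' : (j : ℝ) ≤ 0 := by exact_mod_cast hj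
        left
        refine le_trans ?_ (le_abs_self _)
        nlinarith [mul_nonneg (neg_nonneg.2 hj') ht0]
      · have hj1 : (1 : ℝ) ≤ j := by exact_mod_cast hj
        rcases ht with h0 | h1 | h2
        · left
          subst h0
          refine le_trans ?_ (le_abs_self _)
          nlinarith
        · right; right; left
          refine le_trans ?_ (le_abs_self _)
          nlinarith [mul_nonneg (sub_nonneg.2 hi1') (sub_nonneg.2 htY),
            mul_nonneg (sub_nonneg.2 hj1) (sub_nonneg.2 htZ)]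
        · right; right; right
          refine le_trans ?_ (le_abs_self _)
          nlinarith [mul_nonneg (sub_nonneg.2 hi1') (sub_nonneg.2 htY),
            mul_nonneg (sub_nonneg.2 hj1) (sub_nonneg.2 htZ)]
  rcases le_total 0 i with hi | hi
  · exact key i j hi hij
  · have := key (-i) (-j) (by omega) (by omega)
    have e1 : ((-i : ℤ) : ℝ) * (2 * (1 + e2)) - ((-j : ℤ) : ℝ) * t =
        -((i : ℝ) * (2 * (1 + e2)) - j * t) := by push_cast; ring
    have e2' : -(((-i : ℤ) : ℝ) * t) + ((-j : ℤ) : ℝ) * (2 * (1 + e3)) =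
        -(-((i : ℝ) * t) + j * (2 * (1 + e3))) := by push_cast; ring
    rw [e1, e2'] at this
    rw [← neg_add] at this
    simpa only [abs_neg] using this

/-- Layer `1`. -/
theorem adm_one {e2 e3 b1 b2 b3 b4 t h y0 z0 : ℝ} (htY : t ≤ 2 * (1 + e2))
    (htZ : t ≤ 2 * (1 + e3)) (ht0 : 0 ≤ t)
    (hP : 2 - (e2 + e3) + t + 2 * (b1 + b2) ≤ h)
    (hs : y0 + z0 = 4 * (1 + b1) - h)
    (hd1 : 4 * (1 + b4) - h - 2 * (1 + e3) - t ≤ y0 - z0)
    (hd2 : y0 - z0 ≤ 2 * (1 + e2) + t - 4 * (1 + b3) + h) (i j : ℤ) :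
    4 * (1 + b1) ≤ |h + (y0 + (i : ℝ) * (2 * (1 + e2)) - j * t) +
        (z0 - (i : ℝ) * t + j * (2 * (1 + e3)))| ∨
    4 * (1 + b2) ≤ |h - (y0 + (i : ℝ) * (2 * (1 + e2)) - j * t) -
        (z0 - (i : ℝ) * t + j * (2 * (1 + e3)))| ∨
    4 * (1 + b3) ≤ |-h + (y0 + (i : ℝ) * (2 * (1 + e2)) - j * t) -
        (z0 - (i : ℝ) * t + j * (2 * (1 + e3)))| ∨
    4 * (1 + b4) ≤ |-h - (y0 + (i : ℝ) * (2 * (1 + e2)) - j * t) +
        (z0 - (i : ℝ) * t + j * (2 * (1 + e3)))| := by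
  have hY : 0 ≤ 2 * (1 + e2) - t := by linarith
  have hZ : 0 ≤ 2 * (1 + e3) - t := by linarith
  have hY' : 0 ≤ 2 * (1 + e2) + t := by linarith
  have hZ' : 0 ≤ 2 * (1 + e3) + t := by linarith
  rcases le_or_gt 0 i with hi | hi
  · have hi' : (0 : ℝ) ≤ i := by exact_mod_cast hi
    rcases le_or_gt 0 j with hj | hj
    · have hj' : (0 : ℝ) ≤ j := by exact_mod_cast hj
      left
      refine le_trans ?_ (le_abs_self _)
      nlinarith [mul_nonneg hi' hY, mul_nonneg hj' hZ]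
    · have hj' : (j : ℝ) ≤ -1 := by exact_mod_cast (by omega : j ≤ -1)
      right; right; right
      refine le_trans ?_ (neg_le_abs _)
      nlinarith [mul_nonneg hi' hY', mul_nonneg (sub_nonneg.2 hj') hZ']
  · have hi' : (i : ℝ) ≤ -1 := by exact_mod_cast (by omega : i ≤ -1)
    rcases le_or_gt 0 j with hj | hj
    · have hj' : (0 : ℝ) ≤ j := by exact_mod_cast hj
      right; right; left
      refine le_trans ?_ (neg_le_abs _)
      nlinarith [mul_nonneg (sub_nonneg.2 hi') hY', mul_nonneg hj' hZ']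
    · have hj' : (j : ℝ) ≤ -1 := by exact_mod_cast (by omega : j ≤ -1)
      right; left
      refine le_trans ?_ (le_abs_self _)
      nlinarith [mul_nonneg (sub_nonneg.2 hi') hY, mul_nonneg (sub_nonneg.2 hj') hZ]

/-- **Admissibility.** Every nonzero integer combination `n g + i u + j w` of
`g = (h, y₀, z₀)`, `u = (0, 2Y, -t)`, `w = (0, -t, 2Z)` violates one of the seven strict
inequalities `|x_j| < 2 (1 + e_j)`, `|v_i x| < 4 (1 + b_i)`. -/
theorem adm {e1 e2 e3 b1 b2 b3 b4 t h y0 z0 : ℝ} (he1 : -1 ≤ e1)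
    (ht0 : 0 ≤ t) (htY : t ≤ 2 * (1 + e2)) (htZ : t ≤ 2 * (1 + e3))
    (ht : t = 0 ∨ t ≤ e2 + e3 - 2 * b1 ∨ t ≤ e2 + e3 - 2 * b2)
    (h1 : 1 + e1 ≤ h)
    (hP : 2 - (e2 + e3) + t + 2 * (b1 + b2) ≤ h)
    (hs : y0 + z0 = 4 * (1 + b1) - h)
    (hd1 : 4 * (1 + b4) - h - 2 * (1 + e3) - t ≤ y0 - z0)
    (hd2 : y0 - z0 ≤ 2 * (1 + e2) + t - 4 * (1 + b3) + h) (n i j : ℤ)
    (hne : ¬ (n = 0 ∧ i = 0 ∧ j = 0)) :
    ∀ x y z : ℝ, x = n * h → y = n * y0 + i * (2 * (1 + e2)) - j * t →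
      z = n * z0 - i * t + j * (2 * (1 + e3)) →
    2 * (1 + e1) ≤ |x| ∨ 2 * (1 + e2) ≤ |y| ∨ 2 * (1 + e3) ≤ |z| ∨
    4 * (1 + b1) ≤ |x + y + z| ∨ 4 * (1 + b2) ≤ |x - y - z| ∨
    4 * (1 + b3) ≤ |-x + y - z| ∨ 4 * (1 + b4) ≤ |-x - y + z| := by
  have key : ∀ n i j : ℤ, 0 ≤ n → ¬ (n = 0 ∧ i = 0 ∧ j = 0) →
      ∀ x y z : ℝ, x = n * h → y = n * y0 + i * (2 * (1 + e2)) - j * t →
      z = n * z0 - i * t + j * (2 * (1 + e3)) →
      2 * (1 + e1) ≤ |x| ∨ 2 * (1 + e2) ≤ |y| ∨ 2 * (1 + e3) ≤ |z| ∨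
      4 * (1 + b1) ≤ |x + y + z| ∨ 4 * (1 + b2) ≤ |x - y - z| ∨
      4 * (1 + b3) ≤ |-x + y - z| ∨ 4 * (1 + b4) ≤ |-x - y + z| := by
    intro n i j hn hne x y z hx hy hz
    rcases eq_or_lt_of_le hn with hn0 | hn1
    · -- layer 0
      subst hn0
      have hij : ¬ (i = 0 ∧ j = 0) := fun hh => hne ⟨rfl, hh⟩
      have hx' : x = 0 := by rw [hx]; push_cast; ring
      have hy' : y = (i : ℝ) * (2 * (1 + e2)) - j * t := by rw [hy]; push_cast; ring
      have hz' : z = -((i : ℝ) * t) + j * (2 * (1 + e3)) := by rw [hz]; push_cast; ring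
      rcases adm_zero (b1 := b1) (b2 := b2) ht0 htY htZ ht i j hij with h | h | h | h
      · right; left; rw [hy']; exact h
      · right; right; left; rw [hz']; exact h
      · right; right; right; left
        rw [hx', zero_add, hy', hz']; exact h
      · right; right; right; right; left
        rw [hx', hy', hz']
        have e : (0 : ℝ) - ((i : ℝ) * (2 * (1 + e2)) - j * t) -
            (-((i : ℝ) * t) + j * (2 * (1 + e3))) =
            -(((i : ℝ) * (2 * (1 + e2)) - j * t) + (-((i : ℝ) * t) + j * (2 * (1 + e3)))) := by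
          ring
        rw [e, abs_neg]; exact h
    · rcases eq_or_lt_of_le (show (1 : ℤ) ≤ n by omega) with hn1' | hn2
      · -- layer 1
        have hn' : (n : ℝ) = 1 := by exact_mod_cast hn1'.symm
        have hx' : x = h := by rw [hx, hn', one_mul]
        have hy' : y = y0 + (i : ℝ) * (2 * (1 + e2)) - j * t := by rw [hy, hn', one_mul]
        have hz' : z = z0 - (i : ℝ) * t + j * (2 * (1 + e3)) := by rw [hz, hn', one_mul]
        have := adm_one htY htZ ht0 hP hs hd1 hd2 i j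
        rw [← hy', ← hz', ← hx'] at this
        rcases this with h | h | h | h
        · exact Or.inr (Or.inr (Or.inr (Or.inl h)))
        · exact Or.inr (Or.inr (Or.inr (Or.inr (Or.inl h))))
        · exact Or.inr (Or.inr (Or.inr (Or.inr (Or.inr (Or.inl h)))))
        · exact Or.inr (Or.inr (Or.inr (Or.inr (Or.inr (Or.inr h)))))
      · -- layers `≥ 2`
        have hn2' : (2 : ℝ) ≤ n := by exact_mod_cast (show (2 : ℤ) ≤ n by omega)
        left
        rw [hx]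
        refine le_trans ?_ (le_abs_self _)
        have hh : 0 ≤ h := by linarith
        nlinarith
  intro x y z hx hy hz
  rcases le_total 0 n with hn | hn
  · exact key n i j hn hne x y z hx hy hz
  · have := key (-n) (-i) (-j) (by omega) (by omega) (-x) (-y) (-z)
      (by rw [hx]; push_cast; ring) (by rw [hy]; push_cast; ring) (by rw [hz]; push_cast; ring)
    have a1 : -x + -y + -z = -(x + y + z) := by ring
    have a2 : -x - -y - -z = -(x - y - z) := by ring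
    have a3 : - -x + -y - -z = -(-x + y - z) := by ring
    have a4 : - -x - -y + -z = -(-x - y + z) := by ring
    rw [a1, a2, a3, a4] at this
    simpa only [abs_neg] using this

end Pool.Agent.Helper84.ML3
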