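import Mathlib

/-!
# The real inequality of the inner regime
-/

namespace Pool.Agent.Helper84.ML3

theorem main_case {x e : ℝ} (hx0 : 0 ≤ x) (hx : x ≤ 1 / 2) (he0 : 0 ≤ e) (he : e ≤ 4 / 3 * x) :
    (2 + e) ^ 2 * (2 + x - e) ≤ 80 / 9 * (1 + x) := by
  have h1 : (2 + e) ^ 2 * (2 + x - e) ≤ (2 + 4 / 3 * x) ^ 2 * (2 - 1 / 3 * x) := by
    have key : 0 ≤ (4 / 3 * x - e) * (4 + 4 * x - 2 * (4 / 3 * x + e) + x * (4 / 3 * x + e) -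
        ((4 / 3 * x) ^ 2 + 4 / 3 * x * e + e ^ 2)) := by
      apply mul_nonneg (by linarith)
      nlinarith [mul_nonneg hx0 he0, mul_nonneg he0 (sub_nonneg.2 he),
        mul_nonneg hx0 (sub_nonneg.2 he), mul_nonneg hx0 (sub_nonneg.2 hx)]
    nlinarith [key]
  have h2 : (2 + 4 / 3 * x) ^ 2 * (2 - 1 / 3 * x) ≤ 80 / 9 * (1 + x) := by
    nlinarith [mul_nonneg hx0 (sub_nonneg.2 hx), mul_nonneg (mul_nonneg hx0 hx0) hx0,
      mul_nonneg hx0 hx0]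
  linarith

/-- The inner inequality with the smaller of `b1`, `b2` first. -/
theorem inner_aux {x b1 b2 b3 b4 e1 e2 e3 : ℝ} (hx : x ≤ 1 / 2)
    (hb1 : 0 ≤ b1) (hb2 : 0 ≤ b2) (hb3 : 0 ≤ b3) (hb4 : 0 ≤ b4)
    (hs : b1 + b2 + b3 + b4 ≤ x) (he2 : 0 ≤ e2) (he3 : 0 ≤ e3)
    (h12 : e2 ≤ e1) (h13 : e3 ≤ e1) (he : e1 + e2 + e3 ≤ 2 * x)
    (hPQ : b1 + b2 ≤ b3 + b4) (hm : b1 ≤ b2) :
    ∃ t h : ℝ, (0 ≤ t ∧ t ≤ 1) ∧ t ≤ 2 * (1 + e2) ∧ t ≤ 2 * (1 + e3) ∧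
      (t = 0 ∨ t ≤ e2 + e3 - 2 * b1) ∧ 1 + e1 ≤ h ∧
      2 - (e2 + e3) + t + 2 * (b1 + b2) ≤ h ∧ 2 - (e2 + e3) - t + 2 * (b3 + b4) ≤ h ∧
      (4 * (1 + e2) * (1 + e3) - t ^ 2) * h ≤ 80 / 9 * (1 + x) := by
  have hx0 : 0 ≤ x := by linarith
  have hYZ : 4 * (1 + e2) * (1 + e3) ≤ (2 + (e2 + e3)) ^ 2 := by nlinarith [sq_nonneg (e2 - e3)]
  have he43 : e2 + e3 ≤ 4 / 3 * x := by linarith
  rcases le_or_gt ((b3 + b4) - (b1 + b2)) (e2 + e3 - 2 * b1) with hd | hd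
  · -- case (i)
    refine ⟨(b3 + b4) - (b1 + b2), 2 + (b1 + b2 + b3 + b4) - (e2 + e3),
      ⟨by linarith, by linarith⟩, by linarith, by linarith, Or.inr hd, by linarith, by linarith, by linarith, ?_⟩
    have hh : 0 ≤ 2 + (b1 + b2 + b3 + b4) - (e2 + e3) := by linarith
    calc (4 * (1 + e2) * (1 + e3) - ((b3 + b4) - (b1 + b2)) ^ 2) *
          (2 + (b1 + b2 + b3 + b4) - (e2 + e3))
        ≤ (2 + (e2 + e3)) ^ 2 * (2 + (b1 + b2 + b3 + b4) - (e2 + e3)) := by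
          apply mul_le_mul_of_nonneg_right _ hh
          nlinarith [sq_nonneg ((b3 + b4) - (b1 + b2))]
      _ ≤ (2 + (e2 + e3)) ^ 2 * (2 + x - (e2 + e3)) := by
          apply mul_le_mul_of_nonneg_left _ (sq_nonneg _)
          linarith
      _ ≤ 80 / 9 * (1 + x) := main_case hx0 hx (by linarith) he43
  · rcases le_or_gt (2 * b1) (e2 + e3) with hm2 | hm2
    · -- case (ii)
      refine ⟨e2 + e3 - 2 * b1, 2 - 2 * (e2 + e3) + 2 * b1 + 2 * (b3 + b4),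
        ⟨by linarith, by linarith⟩, by linarith, by linarith, Or.inr le_rfl, by linarith, by linarith, by linarith, ?_⟩
      have hh : 0 ≤ 2 - 2 * (e2 + e3) + 2 * b1 + 2 * (b3 + b4) := by linarith
      have hA : 0 ≤ 1 + (e2 + e3) - b1 := by linarith
      have hB : 0 ≤ 1 + b1 := by linarith
      calc (4 * (1 + e2) * (1 + e3) - (e2 + e3 - 2 * b1) ^ 2) *
            (2 - 2 * (e2 + e3) + 2 * b1 + 2 * (b3 + b4))
          ≤ (4 * (1 + (e2 + e3) - b1) * (1 + b1)) *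
            (2 - 2 * (e2 + e3) + 2 * b1 + 2 * (b3 + b4)) := by
            apply mul_le_mul_of_nonneg_right _ hh
            nlinarith
        _ ≤ (4 * (1 + (e2 + e3) - b1) * (1 + b1)) * (2 * (1 + x - (e2 + e3) - b1)) := by
            apply mul_le_mul_of_nonneg_left _ (by positivity)
            linarith
        _ = 8 * ((1 + b1) * ((1 + (e2 + e3) - b1) * (1 + x - (e2 + e3) - b1))) := by ring
        _ ≤ 8 * ((1 + b1) * (1 + x / 2 - b1) ^ 2) := by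
            apply mul_le_mul_of_nonneg_left _ (by norm_num)
            apply mul_le_mul_of_nonneg_left _ hB
            nlinarith [sq_nonneg ((1 + (e2 + e3) - b1) - (1 + x - (e2 + e3) - b1))]
        _ ≤ 8 * (1 + x / 2) ^ 2 := by
            apply mul_le_mul_of_nonneg_left _ (by norm_num)
            have hb1x : b1 ≤ 1 / 4 := by linarith
            nlinarith [mul_nonneg hb1 hx0, mul_nonneg hb1 hb1,
              mul_nonneg (mul_nonneg hb1 hb1) hx0, mul_nonneg (mul_nonneg hb1 hx0) hx0,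
              mul_nonneg (mul_nonneg hb1 hb1) (sub_nonneg.2 hb1x),
              mul_nonneg (mul_nonneg hb1 hx0) (sub_nonneg.2 hx)]
        _ ≤ 80 / 9 * (1 + x) := by nlinarith [mul_nonneg hx0 (sub_nonneg.2 hx)]
    · -- case (iii)
      refine ⟨0, 2 - (e2 + e3) + 2 * (b3 + b4), ⟨le_rfl, by norm_num⟩,
        by linarith, by linarith, Or.inl rfl, by linarith, by linarith, by linarith, ?_⟩
      have hh : 0 ≤ 2 - (e2 + e3) + 2 * (b3 + b4) := by linarith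
      calc (4 * (1 + e2) * (1 + e3) - 0 ^ 2) * (2 - (e2 + e3) + 2 * (b3 + b4))
          ≤ (2 + (e2 + e3)) ^ 2 * (2 - (e2 + e3) + 2 * (b3 + b4)) := by
            apply mul_le_mul_of_nonneg_right _ hh
            nlinarith
        _ ≤ (2 + (e2 + e3)) ^ 2 * (2 + 2 * x - 3 * (e2 + e3)) := by
            apply mul_le_mul_of_nonneg_left _ (sq_nonneg _)
            linarith
        _ ≤ 8 * (1 + x) := by
            have h0 : 0 ≤ e2 + e3 := by linarith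
            nlinarith [mul_nonneg h0 (sub_nonneg.2 hx), mul_nonneg h0 h0,
              mul_nonneg (mul_nonneg h0 h0) h0, mul_nonneg (mul_nonneg h0 h0) (sub_nonneg.2 hx)]
        _ ≤ 80 / 9 * (1 + x) := by linarith

/-- **The inner inequality** (with `t ≤ 1`). -/
theorem inner_ineq' {x b1 b2 b3 b4 e1 e2 e3 : ℝ} (hx : x ≤ 1 / 2)
    (hb1 : 0 ≤ b1) (hb2 : 0 ≤ b2) (hb3 : 0 ≤ b3) (hb4 : 0 ≤ b4)
    (hs : b1 + b2 + b3 + b4 ≤ x) (he2 : 0 ≤ e2) (he3 : 0 ≤ e3)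
    (h12 : e2 ≤ e1) (h13 : e3 ≤ e1) (he : e1 + e2 + e3 ≤ 2 * x)
    (hPQ : b1 + b2 ≤ b3 + b4) :
    ∃ t h : ℝ, (0 ≤ t ∧ t ≤ 1) ∧ t ≤ 2 * (1 + e2) ∧ t ≤ 2 * (1 + e3) ∧
      (t = 0 ∨ t ≤ e2 + e3 - 2 * b1 ∨ t ≤ e2 + e3 - 2 * b2) ∧ 1 + e1 ≤ h ∧
      2 - (e2 + e3) + t + 2 * (b1 + b2) ≤ h ∧ 2 - (e2 + e3) - t + 2 * (b3 + b4) ≤ h ∧
      (4 * (1 + e2) * (1 + e3) - t ^ 2) * h ≤ 80 / 9 * (1 + x) := by
  rcases le_total b1 b2 with hm | hm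
  · obtain ⟨t, h, h1, h2, h3, h4, h5, h6, h7, h8⟩ :=
      inner_aux hx hb1 hb2 hb3 hb4 hs he2 he3 h12 h13 he hPQ hm
    exact ⟨t, h, h1, h2, h3, h4.imp_right Or.inl, h5, h6, h7, h8⟩
  · obtain ⟨t, h, h1, h2, h3, h4, h5, h6, h7, h8⟩ :=
      inner_aux hx hb2 hb1 hb3 hb4 (by linarith) he2 he3 h12 h13 he (by linarith) hm
    exact ⟨t, h, h1, h2, h3, h4.imp_right Or.inr, h5, by linarith, h7, h8⟩

/-- **The inner inequality.** -/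
theorem inner_ineq {x b1 b2 b3 b4 e1 e2 e3 : ℝ} (hx : x ≤ 1 / 2)
    (hb1 : 0 ≤ b1) (hb2 : 0 ≤ b2) (hb3 : 0 ≤ b3) (hb4 : 0 ≤ b4)
    (hs : b1 + b2 + b3 + b4 ≤ x) (he2 : 0 ≤ e2) (he3 : 0 ≤ e3)
    (h12 : e2 ≤ e1) (h13 : e3 ≤ e1) (he : e1 + e2 + e3 ≤ 2 * x)
    (hPQ : b1 + b2 ≤ b3 + b4) :
    ∃ t h : ℝ, 0 ≤ t ∧ t ≤ 2 * (1 + e2) ∧ t ≤ 2 * (1 + e3) ∧
      (t = 0 ∨ t ≤ e2 + e3 - 2 * b1 ∨ t ≤ e2 + e3 - 2 * b2) ∧ 1 + e1 ≤ h ∧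
      2 - (e2 + e3) + t + 2 * (b1 + b2) ≤ h ∧ 2 - (e2 + e3) - t + 2 * (b3 + b4) ≤ h ∧
      (4 * (1 + e2) * (1 + e3) - t ^ 2) * h ≤ 80 / 9 * (1 + x) := by
  obtain ⟨t, h, h1, h2, h3, h4, h5, h6, h7, h8⟩ :=
    inner_ineq' hx hb1 hb2 hb3 hb4 hs he2 he3 h12 h13 he hPQ
  exact ⟨t, h, h1.1, h2, h3, h4, h5, h6, h7, h8⟩

/-- **The outer inequality**: with `u = c_1 + c_2 ≥ v = c_3 + c_4`, `u + v ≤ 3/5`, a body with
`vol K ≤ (3/10) · (3/8) (4 - (u-v)²) (2-u-v) vol S` satisfies `vol K ≤ (3/2) vol T` as soon as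
`(1-u)(1-v) vol S ≤ vol T`. -/
theorem outer_ineq {u v : ℝ} (hv : 0 ≤ v) (huv : v ≤ u) (hC : u + v ≤ 3 / 5) :
    9 / 80 * (4 - (u - v) ^ 2) * (2 - u - v) ≤ 3 / 2 * ((1 - u) * (1 - v)) := by
  have hu : 0 ≤ u := le_trans hv huv
  have h35 : 0 ≤ 3 / 5 - (u + v) := by linarith
  nlinarith [mul_nonneg hv hu, mul_nonneg (mul_nonneg hv hu) h35,
    mul_nonneg h35 h35, mul_nonneg hu h35, mul_nonneg hv h35,
    mul_nonneg (mul_nonneg hu hu) h35, mul_nonneg (mul_nonneg hv hv) h35,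
    mul_nonneg (sub_nonneg.2 huv) h35, sq_nonneg (u - v),
    mul_nonneg (sq_nonneg (u - v)) h35]

/-- The outer lattice satisfies the hypotheses of `adm` (`e = 0`, `b_i = -c_i`). -/
theorem outer_params {c1 c2 c3 c4 : ℝ} (_h1 : 0 ≤ c1) (_h2 : 0 ≤ c2) (h3 : 0 ≤ c3) (h4 : 0 ≤ c4)
    (hs : c1 + c2 + c3 + c4 ≤ 3 / 5) (hPQ : c3 + c4 ≤ c1 + c2) :
    0 ≤ (c1 + c2) - (c3 + c4) ∧ (c1 + c2) - (c3 + c4) ≤ 2 ∧
      ((c1 + c2) - (c3 + c4) = 0 ∨ (c1 + c2) - (c3 + c4) ≤ 0 + 0 - 2 * (-c1) ∨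
        (c1 + c2) - (c3 + c4) ≤ 0 + 0 - 2 * (-c2)) ∧
      1 + 0 ≤ 2 - (c1 + c2 + c3 + c4) ∧
      2 - (0 + 0) + ((c1 + c2) - (c3 + c4)) + 2 * (-c1 + -c2) ≤ 2 - (c1 + c2 + c3 + c4) ∧
      2 - (0 + 0) - ((c1 + c2) - (c3 + c4)) + 2 * (-c3 + -c4) ≤ 2 - (c1 + c2 + c3 + c4) := by
  refine ⟨by linarith, by linarith, ?_, by linarith, by linarith, by linarith⟩
  rcases le_total c2 c1 with h | h
  · right; left; linarith
  · right; right; linarith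

/-- The numerical constant of the nearly symmetric regime. -/
theorem pi_const : (3 : ℝ) / 10 ≤ Real.pi ^ 2 / (4 * (1 + 3 * (12 / 5))) := by
  have := Real.pi_gt_d2
  rw [le_div_iff₀ (by norm_num)]
  nlinarith

end Pool.Agent.Helper84.ML3
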