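import Pool.Agent.Helper69.MD.Defs
import Pool.Agent.Helper84.ML3.Ineq

/-!
# The inner regime: `K` close to a tetrahedron
-/

set_option autoImplicit false
namespace Pool.Agent.Helper84.ML3

open MeasureTheory Pool.Agent.Helper69.MD
open scoped ENNReal Pointwise

/-- The statement of the bridge (proved in `Helper62/MT/Bridge.lean`). -/
def Bridge : Prop := ∀ {K : Set E3}, IsConvexBody K → ∀ (b : AffineBasis (Fin 4) ℝ E3)
    {β : Fin 4 → ℝ} {e₁ e₂ e₃ τ h : ℝ}, -1 ≤ e₁ → 0 ≤ τ → τ ≤ 2 * (1 + e₂) →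
    τ ≤ 2 * (1 + e₃) → (τ = 0 ∨ τ ≤ e₂ + e₃ - 2 * β 0 ∨ τ ≤ e₂ + e₃ - 2 * β 1) → 1 + e₁ ≤ h →
    2 - (e₂ + e₃) + τ + 2 * (β 0 + β 1) ≤ h → 2 - (e₂ + e₃) - τ + 2 * (β 2 + β 3) ≤ h →
    0 < (4 * (1 + e₂) * (1 + e₃) - τ ^ 2) * h →
    (∀ i, ∀ p ∈ K, ∀ q ∈ K, b.coord i p - b.coord i q ≤ 1 + β i) →
    (∀ p ∈ K, ∀ q ∈ K, b.coord 0 p + b.coord 1 p - (b.coord 0 q + b.coord 1 q) ≤ 1 + e₁) →
    (∀ p ∈ K, ∀ q ∈ K, b.coord 0 p + b.coord 2 p - (b.coord 0 q + b.coord 2 q) ≤ 1 + e₂) →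
    (∀ p ∈ K, ∀ q ∈ K, b.coord 0 p + b.coord 3 p - (b.coord 0 q + b.coord 3 q) ≤ 1 + e₃) →
    volume K ≤ ENNReal.ofReal (3 / 8 * ((4 * (1 + e₂) * (1 + e₃) - τ ^ 2) * h)) *
      volume (convexHull ℝ (Set.range b)) * deltaL K

theorem coord_sum (b : AffineBasis (Fin 4) ℝ E3) (y : E3) :
    b.coord 0 y + b.coord 1 y + b.coord 2 y + b.coord 3 y = 1 := by
  have := b.sum_coord_apply_eq_one y
  rwa [Fin.sum_univ_four] at this

/-- The inner regime with the axis of the largest width first and the pair of facets with the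
smaller sum first. -/
theorem inner0 (hbr : Bridge) {K : Set E3} (hK : IsConvexBody K) (b : AffineBasis (Fin 4) ℝ E3)
    {x : ℝ} (hx : x ≤ 1 / 2) {β : Fin 4 → ℝ} (hβ : ∀ i, 0 ≤ β i) (hβx : ∑ i, β i ≤ x)
    {d : Fin 4 → Fin 4 → ℝ} (d0 : ∀ i j, i ≠ j → 0 ≤ d i j)
    (dx : d 0 1 + d 2 3 + (d 0 2 + d 1 3) + (d 0 3 + d 1 2) ≤ 2 * x)
    (k1 : ∀ y ∈ K, ∀ i, b.coord i y ≤ 1) (k2 : ∀ y ∈ K, ∀ i, -β i ≤ b.coord i y)
    (k3 : ∀ y ∈ K, ∀ i j, i ≠ j → -b.coord i y - b.coord j y ≤ d i j)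
    (h12 : d 0 2 + d 1 3 ≤ d 0 1 + d 2 3) (h13 : d 0 3 + d 1 2 ≤ d 0 1 + d 2 3)
    (hPQ : β 0 + β 1 ≤ β 2 + β 3) :
    volume K ≤ ENNReal.ofReal (10 / 3 * (1 + x)) * volume (convexHull ℝ (Set.range b)) *
      deltaL K := by
  rw [Fin.sum_univ_four] at hβx
  have d01 := d0 0 1 (by decide)
  have d02 := d0 0 2 (by decide)
  have d03 := d0 0 3 (by decide)
  have d12 := d0 1 2 (by decide)
  have d13 := d0 1 3 (by decide)
  have d23 := d0 2 3 (by decide)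
  obtain ⟨t, h, ⟨t0, t1⟩, ht2, ht3, ht, hh1, hP, hQ, hdet⟩ :=
    inner_ineq' (x := x) (b1 := β 0) (b2 := β 1) (b3 := β 2) (b4 := β 3) (e1 := d 0 1 + d 2 3)
      (e2 := d 0 2 + d 1 3) (e3 := d 0 3 + d 1 2) hx (hβ 0) (hβ 1) (hβ 2) (hβ 3) hβx
      (by linarith) (by linarith) h12 h13 (by linarith) hPQ
  have hpos : 0 < (4 * (1 + (d 0 2 + d 1 3)) * (1 + (d 0 3 + d 1 2)) - t ^ 2) * h := by
    apply mul_pos _ (by linarith)
    nlinarith [mul_nonneg (add_nonneg d02 d13) (add_nonneg d03 d12)]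
  have hw : ∀ i j k l : Fin 4, i ≠ j → k ≠ l →
      (∀ y, b.coord i y + b.coord j y + b.coord k y + b.coord l y = 1) →
      ∀ p ∈ K, ∀ q ∈ K, b.coord i p + b.coord j p - (b.coord i q + b.coord j q) ≤
        1 + (d i j + d k l) := by
    intro i j k l hij hkl hs p hp q hq
    have h1 := k3 p hp k l hkl
    have h2 := k3 q hq i j hij
    have h3 := hs p
    linarith
  have hB := hbr hK b (β := β) (e₁ := d 0 1 + d 2 3) (e₂ := d 0 2 + d 1 3)
    (e₃ := d 0 3 + d 1 2) (τ := t) (h := h) (by linarith) t0 ht2 ht3 ht hh1 hP hQ hpos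
    (fun i p hp q hq => by
      have h1 := k1 p hp i
      have h2 := k2 q hq i
      linarith)
    (hw 0 1 2 3 (by decide) (by decide) (fun y => by linarith [coord_sum b y]))
    (hw 0 2 1 3 (by decide) (by decide) (fun y => by linarith [coord_sum b y]))
    (hw 0 3 1 2 (by decide) (by decide) (fun y => by linarith [coord_sum b y]))
  refine hB.trans (mul_le_mul' (mul_le_mul' (ENNReal.ofReal_le_ofReal ?_) le_rfl) le_rfl)
  linarith

/-- The same for a permutation `f` of the vertices. -/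
theorem inner_perm (hbr : Bridge) {K : Set E3} (hK : IsConvexBody K)
    (b : AffineBasis (Fin 4) ℝ E3) {x : ℝ} (hx : x ≤ 1 / 2) {β : Fin 4 → ℝ}
    (hβ : ∀ i, 0 ≤ β i) (hβx : ∑ i, β i ≤ x) {d : Fin 4 → Fin 4 → ℝ}
    (d0 : ∀ i j, i ≠ j → 0 ≤ d i j)
    (k1 : ∀ y ∈ K, ∀ i, b.coord i y ≤ 1) (k2 : ∀ y ∈ K, ∀ i, -β i ≤ b.coord i y)
    (k3 : ∀ y ∈ K, ∀ i j, i ≠ j → -b.coord i y - b.coord j y ≤ d i j) (f : Fin 4 ≃ Fin 4)
    (dx : d (f 0) (f 1) + d (f 2) (f 3) + (d (f 0) (f 2) + d (f 1) (f 3)) +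
      (d (f 0) (f 3) + d (f 1) (f 2)) ≤ 2 * x)
    (h12 : d (f 0) (f 2) + d (f 1) (f 3) ≤ d (f 0) (f 1) + d (f 2) (f 3))
    (h13 : d (f 0) (f 3) + d (f 1) (f 2) ≤ d (f 0) (f 1) + d (f 2) (f 3))
    (hPQ : β (f 0) + β (f 1) ≤ β (f 2) + β (f 3)) :
    volume K ≤ ENNReal.ofReal (10 / 3 * (1 + x)) * volume (convexHull ℝ (Set.range b)) *
      deltaL K := by
  have hc : ∀ i, (b.reindex f.symm).coord i = b.coord (f i) := fun i => by
    rw [AffineBasis.coord_reindex, Equiv.symm_symm]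
  have hr : Set.range (b.reindex f.symm) = Set.range b := by
    rw [AffineBasis.coe_reindex, Equiv.symm_symm]
    exact f.surjective.range_comp b
  have := inner0 hbr hK (b.reindex f.symm) hx (β := fun i => β (f i)) (fun i => hβ _)
    (by rw [Equiv.sum_comp f β]; exact hβx) (d := fun i j => d (f i) (f j))
    (fun i j hij => d0 _ _ (f.injective.ne hij)) dx
    (fun y hy i => by rw [hc]; exact k1 y hy _) (fun y hy i => by rw [hc]; exact k2 y hy _)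
    (fun y hy i j hij => by rw [hc, hc]; exact k3 y hy _ _ (f.injective.ne hij)) h12 h13 hPQ
  rwa [hr] at this

/-- Permutations of the four vertices. -/
def pm (a : Fin 4 → Fin 4) (c : Fin 4 → Fin 4) (h1 : ∀ i, c (a i) = i) (h2 : ∀ i, a (c i) = i) :
    Fin 4 ≃ Fin 4 := ⟨a, c, h1, h2⟩

/-- **The inner regime.** -/
theorem inner (hbr : Bridge) {K : Set E3} (hK : IsConvexBody K) (b : AffineBasis (Fin 4) ℝ E3)
    {x : ℝ} (hx : x ≤ 1 / 2) {β : Fin 4 → ℝ} (hβ : ∀ i, 0 ≤ β i) (hβx : ∑ i, β i ≤ x)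
    {d : Fin 4 → Fin 4 → ℝ} (ds : ∀ i j, d i j = d j i) (d0 : ∀ i j, i ≠ j → 0 ≤ d i j)
    (dx : d 0 1 + d 0 2 + d 0 3 + d 1 2 + d 1 3 + d 2 3 ≤ 2 * x)
    (k1 : ∀ y ∈ K, ∀ i, b.coord i y ≤ 1) (k2 : ∀ y ∈ K, ∀ i, -β i ≤ b.coord i y)
    (k3 : ∀ y ∈ K, ∀ i j, i ≠ j → -b.coord i y - b.coord j y ≤ d i j) :
    volume K ≤ ENNReal.ofReal (10 / 3 * (1 + x)) * volume (convexHull ℝ (Set.range b)) *
      deltaL K := by
  have s10 := ds 1 0
  have s20 := ds 2 0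
  have s30 := ds 3 0
  have s21 := ds 2 1
  have s31 := ds 3 1
  have s32 := ds 3 2
  have go := inner_perm hbr hK b hx hβ hβx d0 k1 k2 k3
  rcases le_total (d 0 2 + d 1 3) (d 0 1 + d 2 3) with hA | hA
  · rcases le_total (d 0 3 + d 1 2) (d 0 1 + d 2 3) with hB | hB
    · -- `{01|23}` is the largest
      rcases le_total (β 0 + β 1) (β 2 + β 3) with hC | hC
      · exact go (pm ![0, 1, 2, 3] ![0, 1, 2, 3] (by decide) (by decide))
          (show d 0 1 + d 2 3 + (d 0 2 + d 1 3) + (d 0 3 + d 1 2) ≤ 2 * x by linarith)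
          (show d 0 2 + d 1 3 ≤ d 0 1 + d 2 3 by linarith)
          (show d 0 3 + d 1 2 ≤ d 0 1 + d 2 3 by linarith)
          (show β 0 + β 1 ≤ β 2 + β 3 by linarith)
      · exact go (pm ![2, 3, 0, 1] ![2, 3, 0, 1] (by decide) (by decide))
          (show d 2 3 + d 0 1 + (d 2 0 + d 3 1) + (d 2 1 + d 3 0) ≤ 2 * x by linarith)
          (show d 2 0 + d 3 1 ≤ d 2 3 + d 0 1 by linarith)
          (show d 2 1 + d 3 0 ≤ d 2 3 + d 0 1 by linarith)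
          (show β 2 + β 3 ≤ β 0 + β 1 by linarith)
    · -- `{03|12}` is the largest
      rcases le_total (β 0 + β 3) (β 1 + β 2) with hC | hC
      · exact go (pm ![0, 3, 1, 2] ![0, 2, 3, 1] (by decide) (by decide))
          (show d 0 3 + d 1 2 + (d 0 1 + d 3 2) + (d 0 2 + d 3 1) ≤ 2 * x by linarith)
          (show d 0 1 + d 3 2 ≤ d 0 3 + d 1 2 by linarith)
          (show d 0 2 + d 3 1 ≤ d 0 3 + d 1 2 by linarith)
          (show β 0 + β 3 ≤ β 1 + β 2 by linarith)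
      · exact go (pm ![1, 2, 0, 3] ![2, 0, 1, 3] (by decide) (by decide))
          (show d 1 2 + d 0 3 + (d 1 0 + d 2 3) + (d 1 3 + d 2 0) ≤ 2 * x by linarith)
          (show d 1 0 + d 2 3 ≤ d 1 2 + d 0 3 by linarith)
          (show d 1 3 + d 2 0 ≤ d 1 2 + d 0 3 by linarith)
          (show β 1 + β 2 ≤ β 0 + β 3 by linarith)
  · rcases le_total (d 0 3 + d 1 2) (d 0 2 + d 1 3) with hB | hB
    · -- `{02|13}` is the largest
      rcases le_total (β 0 + β 2) (β 1 + β 3) with hC | hC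
      · exact go (pm ![0, 2, 1, 3] ![0, 2, 1, 3] (by decide) (by decide))
          (show d 0 2 + d 1 3 + (d 0 1 + d 2 3) + (d 0 3 + d 2 1) ≤ 2 * x by linarith)
          (show d 0 1 + d 2 3 ≤ d 0 2 + d 1 3 by linarith)
          (show d 0 3 + d 2 1 ≤ d 0 2 + d 1 3 by linarith)
          (show β 0 + β 2 ≤ β 1 + β 3 by linarith)
      · exact go (pm ![1, 3, 0, 2] ![2, 0, 3, 1] (by decide) (by decide))
          (show d 1 3 + d 0 2 + (d 1 0 + d 3 2) + (d 1 2 + d 3 0) ≤ 2 * x by linarith)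
          (show d 1 0 + d 3 2 ≤ d 1 3 + d 0 2 by linarith)
          (show d 1 2 + d 3 0 ≤ d 1 3 + d 0 2 by linarith)
          (show β 1 + β 3 ≤ β 0 + β 2 by linarith)
    · -- `{03|12}` is the largest
      rcases le_total (β 0 + β 3) (β 1 + β 2) with hC | hC
      · exact go (pm ![0, 3, 1, 2] ![0, 2, 3, 1] (by decide) (by decide))
          (show d 0 3 + d 1 2 + (d 0 1 + d 3 2) + (d 0 2 + d 3 1) ≤ 2 * x by linarith)
          (show d 0 1 + d 3 2 ≤ d 0 3 + d 1 2 by linarith)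
          (show d 0 2 + d 3 1 ≤ d 0 3 + d 1 2 by linarith)
          (show β 0 + β 3 ≤ β 1 + β 2 by linarith)
      · exact go (pm ![1, 2, 0, 3] ![2, 0, 1, 3] (by decide) (by decide))
          (show d 1 2 + d 0 3 + (d 1 0 + d 2 3) + (d 1 3 + d 2 0) ≤ 2 * x by linarith)
          (show d 1 0 + d 2 3 ≤ d 1 2 + d 0 3 by linarith)
          (show d 1 3 + d 2 0 ≤ d 1 2 + d 0 3 by linarith)
          (show β 1 + β 2 ≤ β 0 + β 3 by linarith)

end Pool.Agent.Helper84.ML3
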